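import Pool.Agent.Helper19.CP.Spec

set_option autoImplicit false

namespace Pool.Agent.Helper56.CP.GAL

open Pool.Agent.Helper19.CP Polynomial

theorem main : S_GAL := by
  intro K S hS hA
  classical
  have hint : ∀ x ∈ S, IsIntegral K x := by
    intro x hx
    have h := hA x hx
    have h' : x ∈ algebraicClosure K ℂ := h
    rw [mem_algebraicClosure_iff] at h'
    exact h'.isIntegral
  let p : K[X] := ∏ x ∈ hS.toFinset, minpoly K x
  have hp : p ≠ 0 := Finset.prod_ne_zero_iff.mpr fun x hx =>
    minpoly.ne_zero (hint x (hS.mem_toFinset.mp hx))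
  have hsp : (p.map (algebraMap K ℂ)).Splits := IsAlgClosed.splits _
  have hroot : ∀ x ∈ S, x ∈ p.rootSet ℂ := by
    intro x hx
    rw [Polynomial.mem_rootSet]
    refine ⟨hp, ?_⟩
    rw [map_prod]
    exact Finset.prod_eq_zero (hS.mem_toFinset.mpr hx) (minpoly.aeval K x)
  haveI : IsSplittingField K (IntermediateField.adjoin K (p.rootSet ℂ)) p :=
    IntermediateField.adjoin_rootSet_isSplittingField hsp
  haveI hfd : FiniteDimensional K (IntermediateField.adjoin K (p.rootSet ℂ)) :=
    IsSplittingField.finiteDimensional _ p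
  haveI : Normal K (IntermediateField.adjoin K (p.rootSet ℂ)) := Normal.of_isSplittingField p
  haveI : Algebra.IsSeparable K (IntermediateField.adjoin K (p.rootSet ℂ)) := inferInstance
  exact ⟨IntermediateField.adjoin K (p.rootSet ℂ), hfd, IsGalois.mk, fun x hx =>
    IntermediateField.subset_adjoin K _ (hroot x hx)⟩

end Pool.Agent.Helper56.CP.GAL
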