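import Pool.Agent.Helper19.CP.Spec

set_option autoImplicit false

namespace Pool.Agent.Helper56.CP.ST2

open Pool.Agent.Helper19.CP MvPolynomial

theorem map_aeval' {n m : ℕ} (τ : ℂ ≃+* ℂ) (G : Fin m → MvPolynomial (Fin n) ℂ)
    (H : MvPolynomial (Fin m) ℂ) :
    map (τ : ℂ →+* ℂ) (aeval G H) =
      aeval (fun i => map (τ : ℂ →+* ℂ) (G i)) (map (τ : ℂ →+* ℂ) H) := by
  have h : ((map (τ : ℂ →+* ℂ)).comp (aeval G : MvPolynomial (Fin m) ℂ →ₐ[ℂ] _).toRingHom) =
      ((aeval (fun i => map (τ : ℂ →+* ℂ) (G i)) :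
        MvPolynomial (Fin m) ℂ →ₐ[ℂ] MvPolynomial (Fin n) ℂ).toRingHom).comp
        (map (τ : ℂ →+* ℂ)) := by
    apply MvPolynomial.ringHom_ext
    · intro a
      simp [algebraMap_eq]
    · intro i
      simp
  exact RingHom.congr_fun h H

theorem map_self {m : ℕ} (K : Subfield ℂ) (τ : ℂ ≃+* ℂ) (hτ : Fixes K τ)
    (F : MvPolynomial (Fin m) ℂ) (hF : Over K F) : map (τ : ℂ →+* ℂ) F = F := by
  ext α
  rw [coeff_map]
  exact hτ _ (hF α)

theorem map_symm {m : ℕ} (τ : ℂ ≃+* ℂ) (H : MvPolynomial (Fin m) ℂ) :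
    map (τ : ℂ →+* ℂ) (map (τ.symm : ℂ →+* ℂ) H) = H := by
  ext α
  rw [coeff_map, coeff_map]
  exact τ.apply_symm_apply _

theorem map_inj {m : ℕ} (τ : ℂ ≃+* ℂ) {H : MvPolynomial (Fin m) ℂ}
    (h : map (τ : ℂ →+* ℂ) H = 0) : H = 0 := by
  ext α
  have := congrArg (coeff α) h
  rw [coeff_map, coeff_zero] at this
  rw [coeff_zero]
  exact τ.injective (this.trans (map_zero τ).symm)

theorem ratios_map {n : ℕ} (τ : ℂ ≃+* ℂ) (G : Tuple n) (z : Rat (n + 1)) (hz : z ∈ ratios G) :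
    (IsFractionRing.ringEquivOfRingEquiv (K := Rat (n + 1)) (L := Rat (n + 1))
      (mapEquiv (Fin (n + 1)) τ)) z ∈ ratios (conj τ G) := by
  set T := (IsFractionRing.ringEquivOfRingEquiv (K := Rat (n + 1)) (L := Rat (n + 1))
      (mapEquiv (Fin (n + 1)) τ)) with hT
  have hTa : ∀ p : MvPolynomial (Fin (n + 1)) ℂ, T (algebraMap _ (Rat (n + 1)) p) =
      algebraMap _ (Rat (n + 1)) (map (τ : ℂ →+* ℂ) p) := by
    intro p
    rw [hT, IsFractionRing.ringEquivOfRingEquiv_algebraMap]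
    rfl
  unfold ratios at hz
  induction hz using IntermediateField.adjoin_induction with
  | mem x hx =>
    obtain ⟨i, j, rfl⟩ := hx
    rw [map_div₀, hTa, hTa]
    exact IntermediateField.subset_adjoin ℂ _ ⟨i, j, rfl⟩
  | algebraMap c =>
    have e1 : algebraMap ℂ (Rat (n + 1)) c =
        algebraMap (MvPolynomial (Fin (n + 1)) ℂ) (Rat (n + 1)) (C c) :=
      IsScalarTower.algebraMap_apply ℂ (MvPolynomial (Fin (n + 1)) ℂ) (Rat (n + 1)) c
    rw [e1, hTa, map_C]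
    have e2 : algebraMap (MvPolynomial (Fin (n + 1)) ℂ) (Rat (n + 1)) (C ((τ : ℂ →+* ℂ) c)) =
        algebraMap ℂ (Rat (n + 1)) (τ c) :=
      (IsScalarTower.algebraMap_apply ℂ (MvPolynomial (Fin (n + 1)) ℂ) (Rat (n + 1)) (τ c)).symm
    rw [e2]
    exact IntermediateField.algebraMap_mem _ _
  | add x y _ _ hx hy => rw [map_add]; exact add_mem hx hy
  | inv x _ hx => rw [map_inv₀]; exact inv_mem hx
  | mul x y _ _ hx hy => rw [map_mul]; exact mul_mem hx hy

theorem main : S_ST2 := by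
  intro n D K F G hF hG τ hτ
  refine ⟨⟨?_, ?_, ?_, ?_⟩, ?_⟩
  · intro i
    exact (hG.hom i).map _
  · have h := map_aeval' τ G F
    rw [hG.zero, map_zero, map_self K τ hτ F hF] at h
    exact h.symm
  · intro e H hH h0
    have h1 : aeval G (map (τ.symm : ℂ →+* ℂ) H) = 0 := by
      apply map_inj τ
      rw [map_aeval', map_symm]
      exact h0
    obtain ⟨q, hq⟩ := hG.dom e (map (τ.symm : ℂ →+* ℂ) H) (hH.map _) h1
    refine ⟨map (τ : ℂ →+* ℂ) q, ?_⟩
    rw [← map_symm τ H, hq, map_mul, map_self K τ hτ F hF]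
  · intro i j
    have h := ratios_map τ G _ (hG.bir i j)
    rw [map_div₀, IsFractionRing.ringEquivOfRingEquiv_algebraMap,
      IsFractionRing.ringEquivOfRingEquiv_algebraMap] at h
    have e : ∀ i : Fin (n + 1), (mapEquiv (Fin (n + 1)) τ) (X i) = X i := fun i => by
      show map (τ : ℂ →+* ℂ) (X i) = X i
      rw [map_X]
    rw [e, e] at h
    exact h
  · intro hA i α
    have h1 : (G i).coeff α ∈ algebraicClosure K ℂ := hA i α
    rw [mem_algebraicClosure_iff] at h1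
    let τ' : ℂ →ₐ[K] ℂ := { (τ : ℂ →+* ℂ) with commutes' := fun x => hτ x x.2 }
    have h2 : IsAlgebraic K (τ' ((G i).coeff α)) := h1.algHom τ'
    have h3 : (conj τ G i).coeff α = τ' ((G i).coeff α) := coeff_map _ _ _
    rw [h3]
    show τ' ((G i).coeff α) ∈ algebraicClosure K ℂ
    rw [mem_algebraicClosure_iff]
    exact h2

end Pool.Agent.Helper56.CP.ST2
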